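import Pool.Agent.Helper91_AT3.Defs

/-! Row SCL of squad AT3: scaling of the vectors, and a basis through a prescribed element. -/

set_option autoImplicit false
set_option linter.unusedSectionVars false

namespace Pool.Agent.H91AT.H75

open MvPolynomial Submodule Pool.Agent.H91AT

variable {σ K ι : Type*} [DecidableEq σ] [Fintype σ] [Field K] [DecidableEq ι]

theorem pr_scale {a a' : ι → σ → K} {k : ι → K} {M : Finset ι}
    (h : ∀ c ∈ M, a' c = k c • a c) (A : Finset ι) (hA : A ⊆ M) :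
    pr a' A = C (∏ c ∈ A, k c) * pr a A := by
  rw [pr, pr, map_prod, ← Finset.prod_mul_distrib]
  refine Finset.prod_congr rfl fun c hc => ?_
  rw [h c (hA hc), map_smul, smul_eq_C_mul]

theorem Fn_C_mul (p : ℕ) (S : Finset σ) (t : K) (f : MvPolynomial σ K) :
    Fn p S (C t * f) = t * Fn p S f := by
  rw [← smul_eq_C_mul, map_smul, smul_eq_mul]

theorem indep_scale {a a' : ι → σ → K} {k : ι → K} {M : Finset ι}
    (h : ∀ c ∈ M, a' c = k c • a c) (hk : ∀ c ∈ M, k c ≠ 0) (B : Finset ι) (hB : B ⊆ M)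
    (hi : LinearIndepOn K a (B : Set ι)) : LinearIndepOn K a' (B : Set ι) := by
  have h1 := LinearIndependent.units_smul (hv := hi)
    (w := fun c : (B : Set ι) => Units.mk0 (k c) (hk c (hB c.2)))
  have h2 : (fun c : (B : Set ι) => a' c) =
      (fun c : (B : Set ι) => Units.mk0 (k c) (hk c (hB c.2))) • fun c : (B : Set ι) => a c := by
    funext c
    rw [h c (hB c.2)]
    rfl
  rw [LinearIndepOn, h2]
  exact h1

theorem sat_scale_imp {a a' : ι → σ → K} {k : ι → K} {M : Finset ι} (p : ℕ) (S : Finset σ)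
    (h : ∀ c ∈ M, a' c = k c • a c) (hk : ∀ c ∈ M, k c ≠ 0) (hs : Sat p S M a) :
    Sat p S M a' := by
  obtain ⟨B, hB, hc, hi, hF⟩ := hs
  refine ⟨B, hB, hc, indep_scale h hk B hB hi, ?_⟩
  rw [pr_scale h _ Finset.sdiff_subset, Fn_C_mul]
  refine mul_ne_zero (Finset.prod_ne_zero_iff.2 fun c hc' => ?_) hF
  exact hk c (Finset.sdiff_subset hc')

theorem flip_scale {a a' : ι → σ → K} {k : ι → K} {M : Finset ι}
    (h : ∀ c ∈ M, a' c = k c • a c) (hk : ∀ c ∈ M, k c ≠ 0) :
    ∀ c ∈ M, a c = (k c)⁻¹ • a' c := by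
  intro c hc
  rw [h c hc, smul_smul, inv_mul_cancel₀ (hk c hc), one_smul]

/-- scaling -/
theorem sat_scale {a a' : ι → σ → K} {k : ι → K} {M : Finset ι} (p : ℕ) (S : Finset σ)
    (h : ∀ c ∈ M, a' c = k c • a c) (hk : ∀ c ∈ M, k c ≠ 0) : Sat p S M a' ↔ Sat p S M a :=
  ⟨sat_scale_imp p S (flip_scale h hk) fun c hc => inv_ne_zero (hk c hc),
    sat_scale_imp p S h hk⟩

theorem bas_scale_imp {b b' : ι → σ → K} {k : ι → K} {M : Finset ι} (S : Finset σ)
    (h : ∀ c ∈ M, b' c = k c • b c) (hk : ∀ c ∈ M, k c ≠ 0) (B : Finset ι) (hB : B ⊆ M)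
    (hs : Bas S b B) : Bas S b' B := by
  obtain ⟨hc, hi, hS⟩ := hs
  refine ⟨hc, indep_scale h hk B hB hi, fun c hcB w hw => ?_⟩
  rw [h c (hB hcB), Pi.smul_apply, hS c hcB w hw, smul_zero]

theorem bas_scale {b b' : ι → σ → K} {k : ι → K} {M : Finset ι} (S : Finset σ)
    (h : ∀ c ∈ M, b' c = k c • b c) (hk : ∀ c ∈ M, k c ≠ 0) (B : Finset ι) (hB : B ⊆ M) :
    Bas S b' B ↔ Bas S b B :=
  ⟨bas_scale_imp S (flip_scale h hk) (fun c hc => inv_ne_zero (hk c hc)) B hB,
    bas_scale_imp S h hk B hB⟩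

/-- the coordinates with respect to a basis of `K^S` -/
theorem exists_coord {S : Finset σ} {a : ι → σ → K} {B : Finset ι} (hc : B.card = S.card)
    (hi : LinearIndepOn K a (B : Set ι)) (hS : ∀ c ∈ B, InS S (a c)) {x : σ → K}
    (hx : InS S x) : ∃ t : ι → K, x = ∑ c ∈ B, t c • a c := by
  classical
  let r : (σ → K) →ₗ[K] (S → K) := LinearMap.funLeft K K Subtype.val
  have hr : ∀ y : σ → K, InS S y → r y = 0 → y = 0 := by
    intro y hy h0
    funext w
    by_cases hw : w ∈ S
    · exact congrFun h0 ⟨w, hw⟩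
    · exact hy w hw
  have hsum : ∀ t : ι → K, InS S (∑ c ∈ B, t c • a c) := by
    intro t w hw
    rw [Finset.sum_apply]
    refine Finset.sum_eq_zero fun c hcB => ?_
    rw [Pi.smul_apply, hS c hcB w hw, smul_zero]
  have h1 : LinearIndependent K fun c : B => r (a c) := by
    have : LinearIndepOn K (fun c => r (a c)) (B : Set ι) := by
      rw [linearIndepOn_finset_iff]
      intro f hf
      refine (linearIndepOn_finset_iff.1 hi) f ?_
      refine hr _ (hsum f) ?_
      rw [map_sum, ← hf]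
      exact Finset.sum_congr rfl fun c _ => by rw [map_smul]
    exact this
  have h2 : span K (Set.range fun c : B => r (a c)) = ⊤ := by
    refine LinearIndependent.span_eq_top_of_card_eq_finrank' h1 ?_
    rw [Fintype.card_coe, hc, Module.finrank_fintype_fun_eq_card, Fintype.card_coe]
  have h3 : r x ∈ span K (Set.range fun c : B => r (a c)) := by rw [h2]; exact mem_top
  rw [mem_span_range_iff_exists_fun] at h3
  obtain ⟨t, ht⟩ := h3
  refine ⟨fun c => if h : c ∈ B then t ⟨c, h⟩ else 0, ?_⟩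
  have e : ∑ c ∈ B, (if h : c ∈ B then t ⟨c, h⟩ else 0) • a c = ∑ c : B, t c • a c := by
    rw [← Finset.sum_coe_sort B]
    refine Finset.sum_congr rfl fun c _ => ?_
    rw [dif_pos c.2]
  rw [← sub_eq_zero]
  refine hr _ ?_ ?_
  · intro w hw
    rw [Pi.sub_apply, hx w hw, hsum _ w hw, sub_zero]
  · rw [e, map_sub, map_sum, ← ht, sub_eq_zero]
    exact Finset.sum_congr rfl fun c _ => by rw [map_smul]

/-- a basis through a prescribed element -/
theorem avoid {p : ℕ} {S : Finset σ} {M : Finset ι} {a : ι → σ → K} (hs : Sat p S M a)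
    (hM : ∀ c ∈ M, InS S (a c)) {g : ι} (hg : g ∈ M) (hg0 : a g ≠ 0) :
    ∃ D ⊆ M, g ∈ D ∧ D.card = S.card ∧ LinearIndepOn K a (D : Set ι) ∧
      Fn p S (pr a (M \ D)) ≠ 0 := by
  obtain ⟨B, hB, hc, hi, hF⟩ := hs
  by_cases hgB : g ∈ B
  · exact ⟨B, hB, hgB, hc, hi, hF⟩
  obtain ⟨t, ht⟩ := exists_coord hc hi (fun c hcB => hM c (hB hcB)) (hM g hg)
  have hgM : g ∈ M \ B := Finset.mem_sdiff.2 ⟨hg, hgB⟩
  have e1 : pr a (M \ B) = ∑ c ∈ B, t c • (lf (a c) * pr a ((M \ B).erase g)) := by
    rw [pr, ← Finset.mul_prod_erase _ _ hgM]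
    conv_lhs => rw [ht]
    rw [map_sum, Finset.sum_mul]
    refine Finset.sum_congr rfl fun c _ => ?_
    rw [map_smul, smul_mul_assoc]
    rfl
  rw [e1, map_sum] at hF
  obtain ⟨c, hcB, hcF⟩ := Finset.exists_ne_zero_of_sum_ne_zero hF
  rw [map_smul, smul_eq_mul] at hcF
  have htc := left_ne_zero_of_mul hcF
  have hFc := right_ne_zero_of_mul hcF
  have hgc : g ∉ B.erase c := fun h => hgB (Finset.mem_of_mem_erase h)
  refine ⟨insert g (B.erase c), ?_, Finset.mem_insert_self _ _, ?_, ?_, ?_⟩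
  · intro y hy
    rcases Finset.mem_insert.1 hy with rfl | hy
    · exact hg
    · exact hB (Finset.mem_of_mem_erase hy)
  · rw [Finset.card_insert_of_notMem hgc, Finset.card_erase_of_mem hcB, ← hc]
    have := Finset.card_pos.2 ⟨c, hcB⟩
    omega
  · rw [linearIndepOn_finset_iff]
    intro f hf
    rw [Finset.sum_insert hgc] at hf
    -- substitute the expansion of `a g`
    have h1 : ∑ y ∈ B, (f g * t y + if y = c then 0 else f y) • a y = 0 := by
      rw [← hf]
      conv_rhs => rw [ht]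
      rw [Finset.smul_sum]
      have : ∑ y ∈ B.erase c, f y • a y = ∑ y ∈ B, (if y = c then 0 else f y) • a y := by
        rw [← Finset.add_sum_erase _ _ hcB, if_pos rfl, zero_smul, zero_add]
        refine Finset.sum_congr rfl fun y hy => ?_
        rw [if_neg (Finset.ne_of_mem_erase hy)]
      rw [this, ← Finset.sum_add_distrib]
      refine Finset.sum_congr rfl fun y _ => ?_
      rw [add_smul, mul_smul]
    have h2 := (linearIndepOn_finset_iff.1 hi) _ h1
    have h3 : f g = 0 := by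
      have := h2 c hcB
      rw [if_pos rfl, add_zero] at this
      rcases mul_eq_zero.1 this with h | h
      · exact h
      · exact absurd h htc
    intro y hy
    rcases Finset.mem_insert.1 hy with rfl | hy
    · exact h3
    · have := h2 y (Finset.mem_of_mem_erase hy)
      rw [h3, zero_mul, zero_add, if_neg (Finset.ne_of_mem_erase hy)] at this
      exact this
  · have e2 : M \ insert g (B.erase c) = insert c ((M \ B).erase g) := by
      ext y
      simp only [Finset.mem_sdiff, Finset.mem_insert, Finset.mem_erase, not_or, not_and, ne_eq]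
      constructor
      · rintro ⟨h1, h2, h3⟩
        by_cases hyc : y = c
        · exact Or.inl hyc
        · exact Or.inr ⟨h2, h1, h3 hyc⟩
      · rintro (h | ⟨h1, h2, h3⟩)
        · subst h
          exact ⟨hB hcB, fun h => hgB (h ▸ hcB), fun h => absurd rfl h⟩
        · exact ⟨h2, h1, fun _ => h3⟩
    have hc' : c ∉ (M \ B).erase g := by
      intro h
      exact (Finset.mem_sdiff.1 (Finset.mem_of_mem_erase h)).2 hcB
    rw [e2, pr, Finset.prod_insert hc']
    exact hFc

end Pool.Agent.H91AT.H75
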